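import Pool.Agent.Helper92.RK.Defs

set_option autoImplicit false

/-! # RK, part STR: the structure theorem -/

namespace Pool.Agent.Helper36.RK.STR

open Pool.Agent.Helper92.RK
open Finset hiding val

theorem main (hFIN : S_FIN) (hCMB : S_CMB) (hMAS : S_MAS) (hDT1 : S_DT1) (hDT2 : S_DT2)
    (hFPO : S_FPO) (hVSZ : S_VSZ) (hNEE : S_NEE) : S_STR := by
  intro k ε ε' hε hε'
  set k' : ℕ := max k 1 with hk'
  have hk'1 : 1 ≤ k' := le_max_right _ _
  set M : ℝ := max 1 (k' * Real.log (1 / ε)) with hM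
  have hM1 : 1 ≤ M := le_max_left _ _
  set δ : ℝ := ε' / M with hδ
  have hδ0 : 0 < δ := by positivity
  obtain ⟨L0, r, c, hc, hcmb⟩ := hCMB k M δ hδ0
  obtain ⟨u, c2, hc2, hmas⟩ := hMAS k r c hc
  obtain ⟨D1, θ, hθ, hdt1⟩ := hDT1 k r c2 hc2
  set D : ℕ := D1 + 2 with hD
  obtain ⟨q, hq⟩ := exists_nat_gt (1 / θ)
  have hq0 : (0 : ℝ) < q := lt_trans (by positivity) hq
  have hq0' : 0 < q := by exact_mod_cast hq0
  have hqθ : 1 / (q : ℝ) ≤ θ := by
    rw [div_le_iff₀ hq0]
    rw [div_lt_iff₀ hθ] at hq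
    linarith
  obtain ⟨c4, hc4⟩ := pow_unbounded_of_one_lt (2 * (q : ℝ) * (2 * k') ^ D) (by norm_num : (1 : ℝ) < 2)
  obtain ⟨B0, hvsz⟩ := hVSZ k c4 M
  refine ⟨L0, r, D, u, 2 * B0, q, hq0', ?_⟩
  intro n F hR hC hpr
  -- the weight
  have hw1 : w1 F ≤ M := by
    have h1 := hFIN n k' (Tm n) F id hk'1 (fun b hb => hC b hb)
      (fun i => (hR i).trans (le_max_left _ _))
    have h2 : pr (Avoid F (id : Tm n → Tm n)) = pr (fun x => ¬ Pool.Agent.Helper92.RK.val F x) := by
      congr 1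
      funext x
      unfold Avoid Pool.Agent.Helper92.RK.val
      simp
    have h3 : wt F (id : Tm n → Tm n) = w1 F := rfl
    rw [h2, h3] at h1
    have h4 : ε ≤ Real.exp (-(w1 F / k')) := hpr.trans h1
    have h5 : Real.log ε ≤ -(w1 F / k') := by
      rw [Real.log_le_iff_le_exp hε]
      exact h4
    have hk0 : (0 : ℝ) < k' := by exact_mod_cast hk'1
    have h6 : w1 F / k' ≤ Real.log (1 / ε) := by
      rw [one_div, Real.log_inv]
      linarith
    rw [div_le_iff₀ hk0] at h6
    refine le_trans ?_ (le_max_right _ _)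
    linarith
  classical
  refine ⟨F.filter (Need F δ), filter_subset _ _, ?_, ?_⟩
  · have h1 := hNEE n F M δ hC hw1 hδ0.le
    have h2 : δ * M = ε' := by
      rw [hδ]
      field_simp
    rw [h2] at h1
    refine le_trans (le_of_eq ?_) h1
    congr 1
    funext x
    simp only [mem_filter, and_imp]
  · intro T hT hTL
    obtain ⟨hTF, hN⟩ := mem_filter.1 hT
    obtain ⟨l, hl, ρ, hCρ, hlρ, hρr, hLng, hmass⟩ := hcmb n F T hR hC hw1 hTF hTL.le hN
    obtain ⟨U, hU, hU'⟩ := hmas n F T ρ l hR hC hTF hl hCρ hlρ hρr hLng hmass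
    set V0 : Finset (Fin n) := univ.filter (fun j => ∃ a ∈ F, ∃ b ∈ F, l.1 ∈ vr a ∧ j ∈ vr b ∧
      T.card ≤ a.card ∧ (vr a ∪ vr b).card ≤ T.card + c4) with hV0
    have hT1 : 1 ≤ T.card := by omega
    refine ⟨l.1, ρ, V0, U, ?_, hlρ, hρr, hU, ?_, ?_, ?_⟩
    · intro a ha b hb hab
      exact hCρ a (mem_union_right _ ha) b (mem_union_right _ hb) hab
    · have h1 := hvsz n F T.card l.1 hR hC hw1 V0 (fun j hj => (mem_filter.1 hj).2)
      calc V0.card ≤ B0 * (T.card + 1) := h1
        _ ≤ B0 * (2 * T.card) := Nat.mul_le_mul_left _ (by omega)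
        _ = 2 * B0 * T.card := by ring
    · intro S hSD hiS hdis hbig j hjS
      have hpos : (0 : ℝ) < 1 / (2 * q : ℝ) * (1 / 2 : ℝ) ^ T.card := by positivity
      obtain ⟨a, haF, b, hbF, hia, hjb, hCa, hCb, hle⟩ :=
        hFPO n k F ρ S l.1 j hR hC hiS hjS hdis _ hpos hbig
      refine mem_filter.2 ⟨mem_univ _, a, haF, b, hbF, hia, hjb, hLng a haF hia hCa, ?_⟩
      have hkk : ((2 * k : ℝ)) ^ S.card ≤ (2 * k' : ℝ) ^ D := by
        have h1 : (2 * k : ℝ) ≤ 2 * k' := by
          have : (k : ℝ) ≤ k' := by exact_mod_cast le_max_left k 1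
          linarith
        have h2 : (1 : ℝ) ≤ 2 * k' := by
          have : (1 : ℝ) ≤ k' := by exact_mod_cast hk'1
          linarith
        calc ((2 * k : ℝ)) ^ S.card ≤ (2 * k' : ℝ) ^ S.card :=
              pow_le_pow_left₀ (by positivity) h1 _
          _ ≤ _ := pow_le_pow_right₀ h2 hSD
      set w := (vr a ∪ vr b).card with hw
      have h3 : (1 / (2 * q : ℝ)) * (1 / 2 : ℝ) ^ T.card ≤ (2 * k' : ℝ) ^ D * (1 / 2 : ℝ) ^ w :=
        hle.trans (mul_le_mul_of_nonneg_right hkk (by positivity))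
      have h4 : (2 : ℝ) ^ w ≤ 2 * q * (2 * k') ^ D * 2 ^ T.card := by
        rw [one_div_pow, one_div_pow] at h3
        have h2w : (0 : ℝ) < 2 ^ w := by positivity
        have h2T : (0 : ℝ) < 2 ^ T.card := by positivity
        rw [mul_one_div, mul_one_div, div_div, div_le_div_iff₀ (by positivity) h2w] at h3
        linarith
      have h5 : (2 : ℝ) ^ w < 2 ^ (T.card + c4) := by
        calc (2 : ℝ) ^ w ≤ 2 * q * (2 * k') ^ D * 2 ^ T.card := h4
          _ < 2 ^ c4 * 2 ^ T.card := by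
            exact mul_lt_mul_of_pos_right hc4 (by positivity)
          _ = 2 ^ (T.card + c4) := by ring
      exact ((pow_lt_pow_iff_right₀ (by norm_num : (1 : ℝ) < 2)).1 h5).le
    · intro j hjT hjU
      obtain ⟨l', hl', rfl⟩ := mem_image.1 hjT
      obtain ⟨hne, hl'ρ, hmass2⟩ := hU' l' hl' hjU
      obtain ⟨σ, hρσ, hCσ, hσD, hlσ, hl'σ, hbig⟩ := hdt1 n F T ρ l l' hR hC hTF hl hl'
        (Ne.symm hne) hCρ hlρ hl'ρ hρr hLng hmass2
      have hdisj : Disjoint ({l.1, l'.1} : Finset (Fin n)) (vr σ) := by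
        rw [disjoint_left]
        intro a ha
        rcases mem_insert.1 ha with rfl | ha
        · exact hlσ
        · rw [mem_singleton.1 ha]
          exact hl'σ
      obtain ⟨S', hS', hle⟩ := hDT2 n F ρ σ {l.1, l'.1} hρσ hCσ hdisj
      have hvr : (vr (σ \ ρ)).card ≤ D1 := by
        calc (vr (σ \ ρ)).card ≤ (σ \ ρ).card := card_image_le
          _ ≤ σ.card := card_le_card sdiff_subset
          _ ≤ D1 := hσD
      refine ⟨{l.1, l'.1} ∪ S', ?_, ?_, ?_, ?_, ?_⟩
      · calc (({l.1, l'.1} : Finset (Fin n)) ∪ S').card ≤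
              ({l.1, l'.1} : Finset (Fin n)).card + S'.card := card_union_le _ _
          _ ≤ 2 + D1 := by
              have := card_le_card hS'
              have h2 := card_le_two (a := l.1) (b := l'.1)
              omega
          _ = D := by omega
      · exact mem_union_left _ (mem_insert_self _ _)
      · exact mem_union_left _ (mem_insert_of_mem (mem_singleton_self _))
      · rw [disjoint_union_left]
        constructor
        · rw [disjoint_left]
          intro a ha
          rcases mem_insert.1 ha with rfl | ha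
          · exact hlρ
          · rw [mem_singleton.1 ha]
            exact hl'ρ
        · rw [disjoint_left]
          intro a ha ha'
          obtain ⟨l1, hl1, hl1a⟩ := mem_image.1 (hS' ha)
          obtain ⟨l2, hl2, hl2a⟩ := mem_image.1 ha'
          obtain ⟨h1, h2⟩ := mem_sdiff.1 hl1
          have := hCσ l1 h1 l2 (hρσ hl2) (hl1a.trans hl2a.symm)
          rw [this] at h2
          exact h2 hl2
      · calc 1 / (q : ℝ) * (1 / 2 : ℝ) ^ T.card ≤ θ * (1 / 2 : ℝ) ^ T.card := by
              exact mul_le_mul_of_nonneg_right hqθ (by positivity)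
          _ ≤ |Mco F σ {l.1, l'.1}| := hbig
          _ ≤ _ := hle

end Pool.Agent.Helper36.RK.STR
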